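import Pool.Agent.Helper34.ST.Basic
import Pool.Agent.Helper34.ST.Stmts

/-!
# Potentials
-/

set_option autoImplicit false

namespace Pool.Agent.Helper34.ST

open Finset

theorem pot_low {ι : Type} [Fintype ι] (r : ι → ι → Prop) (c : ι → ℤ) (q : ℤ) (hq : ∀ u, -q ≤ c u)
    (hcyc : ∀ (L : ℕ) (p : ℕ → ι), 1 ≤ L → L ≤ Fintype.card ι → p L = p 0 →
      (∀ i, i < L → r (p i) (p (i + 1))) → 0 ≤ ∑ i ∈ range L, c (p i)) :
    ∀ (n : ℕ) (p : ℕ → ι), (∀ i, i < n → r (p i) (p (i + 1))) →
      -(max q 0 * (Fintype.card ι : ℤ)) ≤ ∑ i ∈ range n, c (p i) := by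
  intro n
  induction n using Nat.strong_induction_on with
  | _ n ih =>
    intro p hp
    rcases Nat.lt_or_ge (Fintype.card ι) n with hn | hn
    · -- pigeonhole
      obtain ⟨a, b, hab, hpab⟩ := Fintype.exists_ne_map_eq_of_card_lt
        (fun k : Fin (Fintype.card ι + 1) => p k) (by simp)
      have key : ∀ i j : ℕ, i < j → j ≤ Fintype.card ι → p i = p j →
          -(max q 0 * (Fintype.card ι : ℤ)) ≤ ∑ i ∈ range n, c (p i) := by
        intro i j hij hj hpij
        have hcl : 0 ≤ ∑ k ∈ range (j - i), c (p (i + k)) := by
          refine hcyc (j - i) (fun k => p (i + k)) (by omega) (by omega) ?_ ?_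
          · show p (i + (j - i)) = p (i + 0)
            rw [show i + (j - i) = j by omega, show i + 0 = i by omega, hpij]
          · intro k hk
            exact hp (i + k) (by omega)
        have h2 := ih (n - (j - i)) (by omega) (fun k => if k ≤ i then p k else p (k + (j - i))) (by
          intro k hk
          show r (if k ≤ i then p k else p (k + (j - i)))
            (if k + 1 ≤ i then p (k + 1) else p (k + 1 + (j - i)))
          by_cases h1 : k + 1 ≤ i
          · rw [if_pos h1, if_pos (show k ≤ i by omega)]
            exact hp k (by omega)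
          · rw [if_neg h1]
            by_cases h3 : k ≤ i
            · have hki : k = i := by omega
              subst hki
              rw [if_pos h3, hpij, show k + 1 + (j - k) = j + 1 by omega]
              exact hp j (by omega)
            · rw [if_neg h3, show k + 1 + (j - i) = k + (j - i) + 1 by omega]
              exact hp (k + (j - i)) (by omega))
        have e1 : ∑ k ∈ range n, c (p k) = ∑ k ∈ range i, c (p k) +
            (∑ k ∈ range (j - i), c (p (i + k)) + ∑ k ∈ range (n - j), c (p (j + k))) := by
          have s1 : n = i + ((j - i) + (n - j)) := by omega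
          conv_lhs => rw [s1]
          rw [Finset.sum_range_add, Finset.sum_range_add]
          congr 2
          refine Finset.sum_congr rfl (fun k _ => ?_)
          rw [show i + (j - i + k) = j + k by omega]
        have e2 : ∑ k ∈ range (n - (j - i)), c (if k ≤ i then p k else p (k + (j - i))) =
            ∑ k ∈ range i, c (p k) + ∑ k ∈ range (n - j), c (p (j + k)) := by
          have s1 : n - (j - i) = i + (n - j) := by omega
          rw [s1, Finset.sum_range_add]
          congr 1
          · refine Finset.sum_congr rfl (fun k hk => ?_)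
            rw [if_pos (by have := Finset.mem_range.1 hk; omega)]
          · refine Finset.sum_congr rfl (fun k _ => ?_)
            by_cases hk : i + k ≤ i
            · have hk0 : k = 0 := by omega
              subst hk0
              rw [if_pos hk, show i + 0 = i by omega, show j + 0 = j by omega, hpij]
            · rw [if_neg hk, show i + k + (j - i) = j + k by omega]
        have h3 : -(max q 0 * (Fintype.card ι : ℤ)) ≤
            ∑ k ∈ range (n - (j - i)), c (if k ≤ i then p k else p (k + (j - i))) := h2
        rw [e2] at h3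
        rw [e1]
        linarith
      have hab' : (a : ℕ) ≠ (b : ℕ) := fun h => hab (Fin.ext h)
      rcases Nat.lt_or_gt_of_ne hab' with h | h
      · exact key a b h (by have := b.2; omega) hpab
      · exact key b a h (by have := a.2; omega) hpab.symm
    · -- short
      have h1 : ∑ i ∈ range n, (-(max q 0)) ≤ ∑ i ∈ range n, c (p i) := by
        refine Finset.sum_le_sum (fun i _ => ?_)
        have := hq (p i)
        have := le_max_left q 0
        linarith
      rw [Finset.sum_const, Finset.card_range, nsmul_eq_mul] at h1
      have h2 : (max q 0) * (n : ℤ) ≤ max q 0 * (Fintype.card ι : ℤ) := by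
        apply mul_le_mul_of_nonneg_left
        · exact_mod_cast hn
        · exact le_max_right q 0
      nlinarith [h1, h2]

/-- potentials -/
theorem st_POT : ST_POT := by
  intro ι _ r c q hq hcyc
  have hlow := pot_low r c q hq hcyc
  have hmin : ∀ v : ι, ∃ lb : ℤ,
      (∃ (n : ℕ) (p : ℕ → ι), (∀ i, i < n → r (p i) (p (i + 1))) ∧ p n = v ∧
        lb = ∑ i ∈ range n, c (p i)) ∧
      ∀ z : ℤ, (∃ (n : ℕ) (p : ℕ → ι), (∀ i, i < n → r (p i) (p (i + 1))) ∧ p n = v ∧
        z = ∑ i ∈ range n, c (p i)) → lb ≤ z := by
    intro v
    refine Int.exists_least_of_bdd ⟨-(max q 0 * (Fintype.card ι : ℤ)), ?_⟩ ?_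
    · rintro z ⟨n, p, hp, -, rfl⟩
      exact hlow n p hp
    · exact ⟨0, 0, fun _ => v, fun i hi => absurd hi (Nat.not_lt_zero i), rfl, by simp⟩
  choose π h1 h2 using hmin
  refine ⟨π, fun u v huv => ?_⟩
  obtain ⟨n, p, hp, hpn, hu⟩ := h1 u
  refine h2 v (π u + c u) ⟨n + 1, fun k => if k ≤ n then p k else v, ?_, ?_, ?_⟩
  · intro i hi
    show r (if i ≤ n then p i else v) (if i + 1 ≤ n then p (i + 1) else v)
    rw [if_pos (show i ≤ n by omega)]
    by_cases h : i + 1 ≤ n
    · rw [if_pos h]
      exact hp i (by omega)
    · rw [if_neg h, show i = n by omega, hpn]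
      exact huv
  · show (if n + 1 ≤ n then p (n + 1) else v) = v
    rw [if_neg (by omega)]
  · rw [Finset.sum_range_succ, hu]
    congr 1
    · refine Finset.sum_congr rfl (fun k hk => ?_)
      show c (p k) = c (if k ≤ n then p k else v)
      rw [if_pos (by have := Finset.mem_range.1 hk; omega)]
    · show c u = c (if n ≤ n then p n else v)
      rw [if_pos le_rfl, hpn]

end Pool.Agent.Helper34.ST
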